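import Mathlib

/-!
# Non-Galvin ultrafilters extending the club filter, from `κ`-compactness

Let `κ` be uncountable and regular such that each `κ`-complete proper filter on `κ` extends to a
`κ`-complete ultrafilter.  We build a family `(A X)` of `2 ^ κ` subsets of `κ` which is
`κ`-independent modulo the nonstationary ideal, and extend the `κ`-complete filter generated by the
club sets, the sets `A X` and the complements of the intersections of `κ` many of them.
-/

set_option autoImplicit false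

open Cardinal Ordinal Set Order Filter

universe u

namespace Pool.Agent.Lib.MP_121b2e_lc.Compact

variable {κ : Cardinal.{u}}

theorem mk_K (κ : Cardinal.{u}) : #κ.ord.ToType = κ := mk_ord_toType κ

theorem cof_K (h : κ.IsRegular) : Order.cof κ.ord.ToType = κ := by
  rw [cof_toType, h.cof_ord]

theorem regOrder (h : κ.IsRegular) : IsRegularCardinalOrder κ.ord.ToType where
  type_lt_le_ord_cof := by
    rw [cof_K h, type_toType]

theorem nonempty_K (h : κ.IsRegular) : Nonempty κ.ord.ToType := by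
  rw [← mk_ne_zero_iff, mk_K]
  exact h.pos.ne'

/-- The set of points of a given cofinality is stationary. -/
theorem stationary_cof (hκ : κ.IsRegular) {μ : Cardinal.{u}} (hμ : μ.IsRegular) (h : μ < κ) :
    IsStationary {x : κ.ord.ToType | Order.cof (Iio x) = μ} := by
  intro t ht
  have inst := regOrder hκ
  have hf : Order.IsNormal (Subtype.val ∘ Order.enum t ht.isCofinal) := IsClub.isNormal_enum ht
  set f : κ.ord.ToType → κ.ord.ToType := Subtype.val ∘ Order.enum t ht.isCofinal with hfdef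
  have hμκ : μ.ord < κ.ord := ord_lt_ord.mpr h
  let m : κ.ord.ToType := ToType.mk ⟨μ.ord, hμκ⟩
  have hm : typein (α := κ.ord.ToType) (· < ·) m = μ.ord :=
    congrArg Subtype.val (ToType.mk.symm_apply_apply (⟨μ.ord, hμκ⟩ : Set.Iio κ.ord))
  have hcm : Order.cof (Iio m) = μ := by
    rw [Order.cof_Iio, hm, hμ.cof_ord]
  -- `m` is a limit point
  have hne : Nonempty (Iio m) := by
    rw [← cof_ne_zero_iff, hcm]
    exact hμ.pos.ne'
  have hnt : NoTopOrder (Iio m) := by
    rw [← cof_ne_one_iff, hcm]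
    have := hμ.nat_lt 1
    simpa using this.ne'
  have hgt : ∀ y < m, ∃ z, y < z ∧ z < m := by
    intro y hy
    obtain ⟨⟨z, hz⟩, hz2⟩ := NoTopOrder.exists_not_le (⟨y, hy⟩ : Iio m)
    exact ⟨z, not_le.mp hz2, hz⟩
  have hlim : IsSuccLimit m := by
    refine ⟨?_, ?_⟩
    · obtain ⟨⟨y, hy⟩⟩ := hne
      exact fun hmin => absurd (hmin hy.le) (not_le.mpr hy)
    · intro y hy
      obtain ⟨z, hz1, hz2⟩ := hgt y hy.lt
      exact hy.2 hz1 hz2
  refine ⟨f m, ?_, ?_⟩
  · show Order.cof (Iio (f m)) = μ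
    rw [← hcm]
    symm
    let g : Iio m → Iio (f m) := fun y => ⟨f y.1, hf.strictMono y.2⟩
    have hg : StrictMono g := fun y z hyz => hf.strictMono hyz
    apply cof_congr_of_strictMono hg
    rintro ⟨y, hy⟩
    obtain ⟨a, ha, hya⟩ := (hf.lt_iff_exists_lt hlim).mp hy
    exact ⟨g ⟨a, ha⟩, ⟨_, rfl⟩, hya.le⟩
  · have : f m = (Order.enum t ht.isCofinal m : κ.ord.ToType) := rfl
    rw [this]
    exact (Order.enum t ht.isCofinal m).2

/-- A partition of an inaccessible cardinal into stationary sets indexed by a set of size `κ`. -/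
theorem exists_stationary_partition (hκ : κ.IsInaccessible) (Z : Type u) (hZ : #Z = κ) :
    ∃ c : κ.ord.ToType → Z, ∀ z, IsStationary (c ⁻¹' {z}) := by
  have hreg := hκ.isRegular
  have hne := nonempty_K hreg
  obtain ⟨e⟩ : Nonempty (κ.ord.ToType ≃ Z) := by
    rw [← Cardinal.eq, mk_K, hZ]
  let r : κ.ord.ToType → Cardinal.{u} := fun a => ℵ_ (typein (α := κ.ord.ToType) (· < ·) a + 1)
  have hr : Function.Injective r := by
    intro a b hab
    have h1 : typein (α := κ.ord.ToType) (· < ·) a + 1 = typein (α := κ.ord.ToType) (· < ·) b + 1 :=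
      aleph.injective hab
    have h2 : typein (α := κ.ord.ToType) (· < ·) a = typein (α := κ.ord.ToType) (· < ·) b :=
      Order.succ_injective (by simpa [← Order.succ_eq_add_one] using h1)
    exact (typein_inj _).mp h2
  have hr2 : ∀ a, (r a).IsRegular := fun a => isRegular_aleph_add_one _
  have hr3 : ∀ a, r a < κ := by
    intro a
    have h1 : typein (α := κ.ord.ToType) (· < ·) a + 1 < κ.ord := by
      have h2 : typein (α := κ.ord.ToType) (· < ·) a < κ.ord := typein_lt_self a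
      exact (isSuccLimit_ord hreg.aleph0_le).succ_lt h2
    calc r a < ℵ_ κ.ord := aleph_lt_aleph.mpr h1
      _ = κ := hκ.aleph_ord
  refine ⟨fun x => e (Function.invFun r (Order.cof (Iio x))), fun z => ?_⟩
  refine (stationary_cof hreg (hr2 (e.symm z)) (hr3 (e.symm z))).mono ?_
  intro x hx
  have hx' : Order.cof (Iio x) = r (e.symm z) := hx
  show e (Function.invFun r (Order.cof (Iio x))) = z
  rw [hx', Function.leftInverse_invFun hr, Equiv.apply_symm_apply]

/-! ### The independent family -/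

/-- Small subsets of `κ`. -/
abbrev T (κ : Cardinal.{u}) := {s : Set κ.ord.ToType // #s < κ}

/-- Small families of small subsets of `κ`. -/
abbrev B (κ : Cardinal.{u}) := {b : Set (T κ) // #b < κ}

theorem mk_small (hκ : κ.IsInaccessible) (α : Type u) (hα : #α = κ) :
    #{s : Set α // #s < κ} = κ := by
  subst hα
  have h := mk_subset_mk_lt_cof (α := α) hκ.isStrongLimit.isStrongPrelimit
  rw [hκ.isRegular.cof_ord] at h
  exact h

theorem mk_Z (hκ : κ.IsInaccessible) : #(T κ × B κ) = κ := by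
  have h1 : #(T κ) = κ := mk_small hκ _ (mk_K κ)
  have h2 : #(B κ) = κ := mk_small hκ _ h1
  rw [mk_prod, Cardinal.lift_id, Cardinal.lift_id, h1, h2, mul_eq_self hκ.isRegular.aleph0_le]

/-- The independent family. -/
def AX (X : Set κ.ord.ToType) : Set (T κ × B κ) :=
  {p | ⟨X ∩ p.1.1, (mk_le_mk_of_subset inter_subset_right).trans_lt p.1.2⟩ ∈ p.2.1}

theorem indep (hκ : κ.IsInaccessible) (F G : Set (Set κ.ord.ToType)) (hF : #F < κ) (hG : #G < κ)
    (hd : ∀ X ∈ F, X ∉ G) :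
    ∃ p : T κ × B κ, (∀ X ∈ F, p ∈ AX X) ∧ ∀ Y ∈ G, p ∉ AX Y := by
  have hsep : ∀ q : F × G, ∃ d, ¬ (d ∈ q.1.1 ↔ d ∈ q.2.1) := by
    rintro ⟨⟨X, hX⟩, ⟨Y, hY⟩⟩
    by_contra hcon
    push Not at hcon
    have : X = Y := Set.ext hcon
    exact hd X hX (this ▸ hY)
  choose d hdd using hsep
  have hx : #(range d) < κ := by
    refine mk_range_le.trans_lt ?_
    rw [mk_prod, Cardinal.lift_id, Cardinal.lift_id]
    exact mul_lt_of_lt hκ.isRegular.aleph0_le hF hG
  let x : T κ := ⟨range d, hx⟩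
  let φ : F → T κ := fun X => ⟨X.1 ∩ x.1, (mk_le_mk_of_subset inter_subset_right).trans_lt x.2⟩
  have hb : #(range φ) < κ := mk_range_le.trans_lt hF
  refine ⟨(x, ⟨range φ, hb⟩), fun X hX => ⟨⟨X, hX⟩, rfl⟩, fun Y hY hmem => ?_⟩
  obtain ⟨⟨X, hX⟩, hXY⟩ := hmem
  have h1 : X ∩ x.1 = Y ∩ x.1 := congrArg Subtype.val hXY
  have h2 : d (⟨X, hX⟩, ⟨Y, hY⟩) ∈ x.1 := ⟨_, rfl⟩
  apply hdd (⟨X, hX⟩, ⟨Y, hY⟩)
  constructor
  · intro h3
    exact (h1 ▸ (⟨h3, h2⟩ : _ ∈ X ∩ x.1) : _ ∈ Y ∩ x.1).1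
  · intro h3
    exact (h1.symm ▸ (⟨h3, h2⟩ : _ ∈ Y ∩ x.1) : _ ∈ X ∩ x.1).1

/-- `κ`-compactness. -/
def IsCompact' (κ : Cardinal.{u}) : Prop :=
  ∀ F : Filter κ.ord.ToType, F.NeBot → CardinalInterFilter F κ →
    ∃ U : Ultrafilter κ.ord.ToType, (U : Filter κ.ord.ToType) ≤ F ∧
      CardinalInterFilter (U : Filter κ.ord.ToType) κ

theorem inaccessible_of_compact (h0 : ℵ₀ < κ) (hreg : κ.IsRegular) (hc : IsCompact' κ) :
    κ.IsInaccessible := by
  rw [isInaccessible_def]
  refine ⟨h0, hreg, hreg.ne_zero, fun μ hμ => ?_⟩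
  have hbot : (cocardinal κ.ord.ToType hreg).NeBot := by
    rw [neBot_iff]
    intro hbot
    have h1 : (∅ : Set κ.ord.ToType) ∈ cocardinal κ.ord.ToType hreg := by
      rw [hbot]; exact mem_bot
    rw [mem_cocardinal, compl_empty, mk_univ, mk_K] at h1
    exact lt_irrefl _ h1
  obtain ⟨U, hU, hUc⟩ := hc (cocardinal κ.ord.ToType hreg) hbot inferInstance
  by_contra hle
  rw [not_lt] at hle
  obtain ⟨φ⟩ : Nonempty (κ.ord.ToType ↪ Set μ.ord.ToType) := by
    rw [← Cardinal.le_def, mk_K, mk_set, mk_K]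
    exact hle
  let s : Set μ.ord.ToType := {ξ | {a | ξ ∈ φ a} ∈ U}
  have h1 : ∀ ξ : μ.ord.ToType, {a | ξ ∈ φ a ↔ ξ ∈ s} ∈ (U : Filter κ.ord.ToType) := by
    intro ξ
    by_cases hξ : ξ ∈ s
    · have h2 : {a | ξ ∈ φ a} ∈ (U : Filter κ.ord.ToType) := hξ
      filter_upwards [h2] with a ha
      exact ⟨fun _ => hξ, fun _ => ha⟩
    · have h2 : {a | ξ ∈ φ a}ᶜ ∈ (U : Filter κ.ord.ToType) :=
        Ultrafilter.compl_mem_iff_notMem.mpr hξ
      filter_upwards [h2] with a ha
      exact ⟨fun h => absurd h ha, fun h => absurd h hξ⟩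
  have h2 : (⋂ ξ, {a | ξ ∈ φ a ↔ ξ ∈ s}) ∈ (U : Filter κ.ord.ToType) := by
    rw [cardinal_iInter_mem (by rw [mk_K]; exact hμ)]
    exact h1
  have h3 : (⋂ ξ, {a | ξ ∈ φ a ↔ ξ ∈ s}).Subsingleton := by
    intro a ha b hb
    apply φ.injective
    rw [mem_iInter] at ha hb
    ext ξ
    exact (ha ξ).trans (hb ξ).symm
  have h4 : (⋂ ξ, {a | ξ ∈ φ a ↔ ξ ∈ s})ᶜ ∈ (U : Filter κ.ord.ToType) := by
    apply hU
    apply compl_mem_cocardinal_of_card_lt
    have h5 : #(⋂ ξ, {a | ξ ∈ φ a ↔ ξ ∈ s} : Set κ.ord.ToType) ≤ 1 := by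
      rw [mk_le_one_iff_set_subsingleton]
      exact h3
    exact h5.trans_lt (by simpa using hreg.nat_lt 1)
  exact (Ultrafilter.compl_mem_iff_notMem.mp h4) h2

/-- The main construction: a `κ`-complete ultrafilter extending the club filter, together with
`2 ^ κ` many of its members such that no `κ` of them have their intersection in it. -/
theorem main (h0 : ℵ₀ < κ) (hreg : κ.IsRegular) (hc : IsCompact' κ) :
    ∃ U : Ultrafilter κ.ord.ToType, CardinalInterFilter (U : Filter κ.ord.ToType) κ ∧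
      (∀ C : Set κ.ord.ToType, IsClub C → C ∈ U) ∧
      ∃ A : Set κ.ord.ToType → Set κ.ord.ToType, (∀ X, A X ∈ U) ∧
        ∀ J : Set (Set κ.ord.ToType), #J = κ → (⋂ X ∈ J, A X) ∉ U := by
  have hκ := inaccessible_of_compact h0 hreg hc
  obtain ⟨c, hcs⟩ := exists_stationary_partition hκ (T κ × B κ) (mk_Z hκ)
  let A : Set κ.ord.ToType → Set κ.ord.ToType := fun X => c ⁻¹' AX X
  let G1 : Set (Set κ.ord.ToType) := {C | IsClub C}
  let G2 : Set (Set κ.ord.ToType) := range A
  let G3 : Set (Set κ.ord.ToType) := {S | ∃ J : Set (Set κ.ord.ToType), #J = κ ∧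
    S = (⋂ X ∈ J, A X)ᶜ}
  let F : Filter κ.ord.ToType := cardinalGenerate (G1 ∪ G2 ∪ G3) (hreg.nat_lt 2)
  have hFc : CardinalInterFilter F κ := cardinalInter_ofCardinalGenerate _ _
  have hmem : ∀ S ∈ G1 ∪ G2 ∪ G3, S ∈ F := fun S hS => CardinalGenerateSets.basic hS
  have hbot : F.NeBot := by
    rw [neBot_iff]
    intro hbot
    have h1 : (∅ : Set κ.ord.ToType) ∈ F := by rw [hbot]; exact mem_bot
    rw [mem_cardinalGenerate_iff (hreg := hreg)] at h1
    obtain ⟨S, hS1, hS2, hS3⟩ := h1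
    -- the clubs
    have hclub : IsClub (⋂₀ (S ∩ G1)) := by
      apply IsClub.sInter
      · rw [cof_K hreg]; exact h0.ne'
      · rw [cof_K hreg]
        exact (mk_le_mk_of_subset inter_subset_left).trans_lt hS2
      · intro C hC
        exact hC.2
    -- the positive sets
    have hx : ∀ s : (S ∩ G2 : Set (Set κ.ord.ToType)), ∃ X, A X = s.1 := fun s => s.2.2
    choose x hx using hx
    have hxc : #(range x) < κ :=
      mk_range_le.trans_lt ((mk_le_mk_of_subset inter_subset_left).trans_lt hS2)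
    -- the negative sets
    have hy : ∀ s : (S ∩ G3 : Set (Set κ.ord.ToType)), ∃ Y, Y ∉ range x ∧ (A Y)ᶜ ⊆ s.1 := by
      rintro ⟨s, hs, J, hJ, rfl⟩
      have h2 : ¬ J ⊆ range x := by
        intro hsub
        have := (mk_le_mk_of_subset hsub).trans_lt hxc
        rw [hJ] at this
        exact lt_irrefl _ this
      obtain ⟨Y, hY1, hY2⟩ := not_subset.mp h2
      refine ⟨Y, hY2, compl_subset_compl.mpr ?_⟩
      exact biInter_subset_of_mem hY1
    choose y hy1 hy2 using hy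
    have hyc : #(range y) < κ :=
      mk_range_le.trans_lt ((mk_le_mk_of_subset inter_subset_left).trans_lt hS2)
    obtain ⟨p, hp1, hp2⟩ := indep hκ (range x) (range y) hxc hyc (by
      rintro X hX ⟨s, rfl⟩
      exact hy1 s hX)
    obtain ⟨a, ha1, ha2⟩ := hcs p hclub
    have ha1' : c a = p := ha1
    apply hS3 (show a ∈ ⋂₀ S from ?_)
    intro s hs
    rcases hS1 hs with (h2 | h2) | h2
    · exact ha2 s ⟨hs, h2⟩
    · have h3 : a ∈ A (x ⟨s, hs, h2⟩) := by
        show c a ∈ AX _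
        rw [ha1']
        exact hp1 _ ⟨_, rfl⟩
      rw [hx] at h3
      exact h3
    · apply hy2 ⟨s, hs, h2⟩
      show c a ∉ AX _
      rw [ha1']
      exact hp2 _ ⟨_, rfl⟩
  obtain ⟨U, hU, hUc⟩ := hc F hbot hFc
  refine ⟨U, hUc, fun C hC => hU (hmem C (Or.inl (Or.inl hC))), A,
    fun X => hU (hmem _ (Or.inl (Or.inr ⟨X, rfl⟩))), fun J hJ => ?_⟩
  have h1 : (⋂ X ∈ J, A X)ᶜ ∈ U := hU (hmem _ (Or.inr ⟨J, hJ, rfl⟩))
  exact Ultrafilter.compl_mem_iff_notMem.mp h1

end Pool.Agent.Lib.MP_121b2e_lc.Compact
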