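import Mathlib
import Pool.Agent.Lib.MP_121b2e_lc.Compact

/-!
# A Q-point without the Galvin property on every `κ`-compact cardinal

Let `κ` be an uncountable regular cardinal which is `κ`-compact, that is, every `κ`-complete proper
filter on `κ` extends to a `κ`-complete ultrafilter on `κ` (for instance a strongly compact
cardinal). Then there is a `κ`-complete ultrafilter on `κ` which contains all club subsets of `κ`
and fails the Galvin property; moreover the failure is witnessed by `2 ^ κ` sets.
-/

set_option autoImplicit false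

open Cardinal Ordinal Filter

universe u

namespace Pool.Agent.Lib.MP_121b2e_lc.KappaCompact

/-- If `κ` is uncountable, regular and `κ`-compact, then there is a `κ`-complete ultrafilter `U` on
`κ` containing all clubs of `κ` without the Galvin property. Moreover `U` has `2 ^ κ` members no
`κ` of which have their intersection in `U`. -/
theorem result (κ : Cardinal.{u}) (huncountable : ℵ₀ < κ) (hregular : κ.IsRegular)
    (hcompact : ∀ F : Filter κ.ord.ToType, F.NeBot → CardinalInterFilter F κ →
      ∃ U : Ultrafilter κ.ord.ToType, (U : Filter κ.ord.ToType) ≤ F ∧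
        CardinalInterFilter (U : Filter κ.ord.ToType) κ) :
    ∃ U : Ultrafilter κ.ord.ToType,
      CardinalInterFilter (U : Filter κ.ord.ToType) κ ∧
      (∀ C : Set κ.ord.ToType, IsClub C → C ∈ U) ∧
      (¬ ∀ A : (Order.succ κ).ord.ToType → Set κ.ord.ToType, (∀ i, A i ∈ U) →
        ∃ I : Set (Order.succ κ).ord.ToType, #I = κ ∧ (⋂ i ∈ I, A i) ∈ U) ∧
      ∃ A : ((2 : Cardinal.{u}) ^ κ).ord.ToType → Set κ.ord.ToType, (∀ i, A i ∈ U) ∧
        ∀ I : Set ((2 : Cardinal.{u}) ^ κ).ord.ToType, #I = κ → (⋂ i ∈ I, A i) ∉ U := by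
  obtain ⟨U, hU1, hU2, A, hA1, hA2⟩ :=
    Pool.Agent.Lib.MP_121b2e_lc.Compact.main huncountable hregular hcompact
  -- transfer the family along an injection of the index set
  have key : ∀ (S : Type u) (e : S ↪ Set κ.ord.ToType) (I : Set S), #I = κ →
      (⋂ i ∈ I, A (e i)) ∉ U := by
    intro S e I hI
    have h1 : (⋂ i ∈ I, A (e i)) = ⋂ X ∈ e '' I, A X := by
      rw [Set.biInter_image]
    rw [h1]
    apply hA2
    rw [mk_image_eq e.injective, hI]
  have hcard : #(Set κ.ord.ToType) = (2 : Cardinal.{u}) ^ κ := by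
    rw [mk_set, mk_ord_toType]
  refine ⟨U, hU1, hU2, ?_, ?_⟩
  · intro hG
    obtain ⟨e⟩ : Nonempty ((Order.succ κ).ord.ToType ↪ Set κ.ord.ToType) := by
      rw [← Cardinal.le_def, mk_ord_toType, hcard]
      exact Order.succ_le_of_lt (cantor κ)
    obtain ⟨I, hI1, hI2⟩ := hG (fun i => A (e i)) (fun i => hA1 _)
    exact key _ e I hI1 hI2
  · obtain ⟨e⟩ : Nonempty (((2 : Cardinal.{u}) ^ κ).ord.ToType ↪ Set κ.ord.ToType) := by
      rw [← Cardinal.le_def, mk_ord_toType, hcard]
    exact ⟨fun i => A (e i), fun i => hA1 _, fun I hI => key _ e I hI⟩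

end Pool.Agent.Lib.MP_121b2e_lc.KappaCompact
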