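import Mathlib

/-!
# From arbitrary non-Galvin ultrafilters to Q-points

Suppose `κ` carries `κ` many distinct normal measures `D ξ`. Then they are concentrated on pairwise
disjoint sets, and for each `κ`-complete ultrafilter `W` on `κ` the `W`-sum of the `D ξ` is a
`κ`-complete ultrafilter extending the club filter which is Rudin-Keisler above `W`. As the Galvin
property goes down in the Rudin-Keisler order, non-Galvin ultrafilters yield non-Galvin Q-points.
-/

set_option autoImplicit false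

open Cardinal Ordinal Set Order Filter

universe u

namespace Pool.Agent.Lib.MP_121b2e_lc.Transfer

/-- A filter `F` on (the ordinals below) the cardinal `κ` has the Galvin property: for every family
of `κ⁺` many members of `F` some `κ` many of them have their intersection in `F`. -/
def GalvinProperty (κ : Cardinal.{u}) (F : Filter κ.ord.ToType) : Prop :=
  ∀ A : (Order.succ κ).ord.ToType → Set κ.ord.ToType, (∀ i, A i ∈ F) →
    ∃ I : Set (Order.succ κ).ord.ToType, #I = κ ∧ (⋂ i ∈ I, A i) ∈ F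

/-- A normal measure on `κ`: a `κ`-complete ultrafilter on (the ordinals below) `κ` containing all
final segments, such that every function that is regressive on a set in the ultrafilter is constant
on a set in the ultrafilter. -/
structure IsNormalMeasure (κ : Cardinal.{u}) (U : Ultrafilter κ.ord.ToType) : Prop where
  complete : CardinalInterFilter (U : Filter κ.ord.ToType) κ
  final : ∀ a : κ.ord.ToType, {b | a < b} ∈ U
  normal : ∀ f : κ.ord.ToType → κ.ord.ToType, {a | f a < a} ∈ U → ∃ b, {a | f a = b} ∈ U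

variable {κ : Cardinal.{u}}

/-- Diagonal intersections. -/
theorem IsNormalMeasure.diagonal {U : Ultrafilter κ.ord.ToType} (hU : IsNormalMeasure κ U)
    (S : κ.ord.ToType → Set κ.ord.ToType) (hS : ∀ ξ, S ξ ∈ U) :
    {a | ∀ ξ < a, a ∈ S ξ} ∈ U := by
  classical
  by_contra hcon
  have h1 : {a | ∀ ξ < a, a ∈ S ξ}ᶜ ∈ U := Ultrafilter.compl_mem_iff_notMem.mpr hcon
  let f : κ.ord.ToType → κ.ord.ToType := fun a =>
    if h : ∃ ξ, ξ < a ∧ a ∉ S ξ then h.choose else a
  have hf : ∀ a ∈ {a | ∀ ξ < a, a ∈ S ξ}ᶜ, f a < a ∧ a ∉ S (f a) := by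
    intro a ha
    have h : ∃ ξ, ξ < a ∧ a ∉ S ξ := by
      rw [mem_compl_iff, mem_ofPred_eq] at ha
      push Not at ha
      exact ha
    have h2 : f a = h.choose := dif_pos h
    rw [h2]
    exact h.choose_spec
  obtain ⟨b, hb⟩ := hU.normal f (mem_of_superset h1 (fun a ha => (hf a ha).1))
  have h2 : {a | f a = b} ∩ {a | ∀ ξ < a, a ∈ S ξ}ᶜ ∩ S b ∈ (U : Filter κ.ord.ToType) :=
    inter_mem (inter_mem hb h1) (hS b)
  obtain ⟨a, ⟨ha1, ha2⟩, ha3⟩ := U.nonempty_of_mem h2
  have ha1' : f a = b := ha1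
  exact (hf a ha2).2 (ha1' ▸ ha3)

/-- Normal measures contain the club sets. -/
theorem IsNormalMeasure.club {U : Ultrafilter κ.ord.ToType} (hU : IsNormalMeasure κ U)
    {C : Set κ.ord.ToType} (hC : IsClub C) : C ∈ U := by
  classical
  by_contra hcon
  have h1 : Cᶜ ∈ U := Ultrafilter.compl_mem_iff_notMem.mpr hcon
  obtain ⟨a0⟩ : Nonempty κ.ord.ToType := by
    obtain ⟨a, -⟩ := U.nonempty_of_mem h1
    exact ⟨a⟩
  obtain ⟨c0, hc0, -⟩ := hC.isCofinal a0
  let f : κ.ord.ToType → κ.ord.ToType := fun a =>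
    if h : ∃ x, IsLUB (C ∩ Iio a) x then h.choose else a
  have hf : ∀ a, c0 < a → a ∉ C → IsLUB (C ∩ Iio a) (f a) ∧ f a < a := by
    intro a ha haC
    have hne : (upperBounds (C ∩ Iio a)).Nonempty := ⟨a, fun x hx => (le_of_lt hx.2)⟩
    have h : ∃ x, IsLUB (C ∩ Iio a) x := by
      refine ⟨(IsWellFounded.wf (r := (· < ·))).min _ hne, ?_, ?_⟩
      · exact (IsWellFounded.wf (r := (· < ·))).min_mem _ hne
      · intro y hy
        exact not_lt.mp ((IsWellFounded.wf (r := (· < ·))).not_lt_min _ hy)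
    have h2 : f a = h.choose := dif_pos h
    have h3 : IsLUB (C ∩ Iio a) (f a) := by rw [h2]; exact h.choose_spec
    refine ⟨h3, ?_⟩
    have h4 : f a ∈ C := hC.isLUB_mem inter_subset_left ⟨c0, hc0, ha⟩ h3
    have h5 : f a ≤ a := h3.2 (fun x hx => le_of_lt hx.2)
    rcases h5.lt_or_eq with h6 | h6
    · exact h6
    · rw [h6] at h4; exact absurd h4 haC
  have h2 : Cᶜ ∩ {b | c0 < b} ∈ (U : Filter κ.ord.ToType) := inter_mem h1 (hU.final c0)
  obtain ⟨b, hb⟩ := hU.normal f (mem_of_superset h2 (fun a ha => (hf a ha.2 ha.1).2))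
  -- a member of `C` above `b`
  obtain ⟨b', hb'⟩ := U.nonempty_of_mem (hU.final b)
  obtain ⟨c, hc, hbc⟩ := hC.isCofinal b'
  have hbc' : b < c := lt_of_lt_of_le hb' hbc
  obtain ⟨a, ⟨⟨ha1, ha2⟩, ha3⟩, ha4⟩ :=
    U.nonempty_of_mem (inter_mem (inter_mem h2 (hU.final c)) hb)
  have h5 := (hf a ha2 ha1).1.1 ⟨hc, ha3⟩
  have ha4' : f a = b := ha4
  rw [ha4'] at h5
  exact absurd hbc' (not_lt.mpr h5)

/-- Distinct normal measures concentrate on pairwise disjoint sets. -/
theorem exists_disjoint (D : κ.ord.ToType → Ultrafilter κ.ord.ToType)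
    (hinj : Function.Injective D) (hD : ∀ ξ, IsNormalMeasure κ (D ξ)) :
    ∃ B : κ.ord.ToType → Set κ.ord.ToType, (∀ ξ, B ξ ∈ D ξ) ∧
      ∀ ξ η a, a ∈ B ξ → a ∈ B η → ξ = η := by
  classical
  have h1 : ∀ ξ η : κ.ord.ToType, ∃ s : Set κ.ord.ToType, ξ ≠ η → s ∈ D ξ ∧ s ∉ D η := by
    intro ξ η
    by_cases h : ξ = η
    · exact ⟨∅, fun h2 => absurd h h2⟩
    · have h2 : D ξ ≠ D η := fun h3 => h (hinj h3)
      by_contra hcon
      push Not at hcon
      apply h2
      apply Ultrafilter.coe_injective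
      apply le_antisymm
      · have h3 : (D ξ : Filter κ.ord.ToType) ≤ D η := by
          intro s hs
          by_contra h4
          have h5 : sᶜ ∈ D ξ := Ultrafilter.compl_mem_iff_notMem.mpr h4
          exact (Ultrafilter.compl_mem_iff_notMem.mp ((hcon sᶜ).2 h5)) hs
        exact h3
      · intro s hs
        exact (hcon s).2 hs
  choose R hR using h1
  let S : κ.ord.ToType → κ.ord.ToType → Set κ.ord.ToType := fun ξ η =>
    if ξ < η then R ξ η else if η < ξ then (R η ξ)ᶜ else Set.univ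
  have hS : ∀ ξ η, S ξ η ∈ D ξ := by
    intro ξ η
    rcases lt_trichotomy ξ η with h | h | h
    · have h2 : S ξ η = R ξ η := if_pos h
      rw [h2]
      exact (hR ξ η h.ne).1
    · subst h
      have h2 : S ξ ξ = Set.univ := by simp only [S, lt_irrefl, if_false]
      rw [h2]
      exact univ_mem
    · have h2 : S ξ η = (R η ξ)ᶜ := by
        simp only [S, if_neg (not_lt_of_gt h), if_pos h]
      rw [h2]
      exact Ultrafilter.compl_mem_iff_notMem.mpr (hR η ξ h.ne).2
  have hdisj : ∀ ξ η a, ξ < η → a ∈ S ξ η → a ∉ S η ξ := by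
    intro ξ η a h h2 h3
    have h4 : S ξ η = R ξ η := if_pos h
    have h5 : S η ξ = (R ξ η)ᶜ := by
      simp only [S, if_neg (not_lt_of_gt h), if_pos h]
    rw [h4] at h2
    rw [h5] at h3
    exact h3 h2
  refine ⟨fun ξ => {a | ξ < a} ∩ {a | ∀ η < a, a ∈ S ξ η}, fun ξ => ?_, ?_⟩
  · exact inter_mem ((hD ξ).final ξ) ((hD ξ).diagonal _ (hS ξ))
  · rintro ξ η a ⟨h1, h2⟩ ⟨h3, h4⟩
    rcases lt_trichotomy ξ η with h | h | h
    · exact absurd (h4 ξ h1) (hdisj ξ η a h (h2 η h3))
    · exact h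
    · exact absurd (h2 η h3) (hdisj η ξ a h (h4 ξ h1))

/-- The sum of a family of `κ`-complete ultrafilters extending the club filter concentrating on
disjoint sets along a non-Galvin `κ`-complete ultrafilter. -/
theorem transfer (W : Ultrafilter κ.ord.ToType)
    (hW : CardinalInterFilter (W : Filter κ.ord.ToType) κ) (hG : ¬ GalvinProperty κ W)
    (D : κ.ord.ToType → Ultrafilter κ.ord.ToType)
    (hD : ∀ ξ, CardinalInterFilter (D ξ : Filter κ.ord.ToType) κ)
    (hC : ∀ ξ, ∀ C : Set κ.ord.ToType, IsClub C → C ∈ D ξ)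
    (B : κ.ord.ToType → Set κ.ord.ToType) (hB : ∀ ξ, B ξ ∈ D ξ)
    (hdisj : ∀ ξ η a, a ∈ B ξ → a ∈ B η → ξ = η) :
    ∃ U : Ultrafilter κ.ord.ToType, CardinalInterFilter (U : Filter κ.ord.ToType) κ ∧
      (∀ C : Set κ.ord.ToType, IsClub C → C ∈ U) ∧ ¬ GalvinProperty κ U := by
  classical
  let U : Ultrafilter κ.ord.ToType := W.bind D
  have hmem : ∀ s : Set κ.ord.ToType, s ∈ U ↔ {ξ | s ∈ D ξ} ∈ W := by
    intro s
    exact Filter.mem_bind'
  refine ⟨U, ⟨fun S hS h => ?_⟩, fun C hCl => ?_, ?_⟩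
  · have h1 : ⋂₀ S ∈ U := by
      rw [hmem]
      have h2 : (⋂ s ∈ S, {ξ | s ∈ D ξ}) ∈ (W : Filter κ.ord.ToType) := by
        rw [cardinal_bInter_mem hS]
        intro s hs
        exact (hmem s).mp (h s hs)
      refine mem_of_superset h2 (fun ξ hξ => ?_)
      have h3 : ⋂₀ S ∈ (D ξ : Filter κ.ord.ToType) := by
        have := hD ξ
        rw [cardinal_sInter_mem hS]
        intro s hs
        rw [mem_iInter₂] at hξ
        exact hξ s hs
      exact h3
    exact h1
  · rw [hmem]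
    exact univ_mem' (fun ξ => hC ξ C hCl)
  · intro hGU
    apply hG
    intro A hA
    let h : κ.ord.ToType → κ.ord.ToType := fun a =>
      if hx : ∃ ξ, a ∈ B ξ then hx.choose else a
    have hh : ∀ ξ a, a ∈ B ξ → h a = ξ := by
      intro ξ a ha
      have hx : ∃ ξ, a ∈ B ξ := ⟨ξ, ha⟩
      have h2 : h a = hx.choose := dif_pos hx
      rw [h2]
      exact hdisj _ _ a hx.choose_spec ha
    obtain ⟨I, hI1, hI2⟩ := hGU (fun i => h ⁻¹' (A i)) (fun i => by
      have h3 : h ⁻¹' (A i) ∈ U := by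
        rw [hmem]
        refine mem_of_superset (hA i) (fun ξ hξ => ?_)
        refine mem_of_superset (hB ξ) (fun a ha => ?_)
        show h a ∈ A i
        rw [hh ξ a ha]
        exact hξ
      exact h3)
    refine ⟨I, hI1, ?_⟩
    have hI3 : (⋂ i ∈ I, h ⁻¹' (A i)) ∈ U := hI2
    rw [hmem] at hI3
    refine mem_of_superset hI3 (fun ξ hξ => ?_)
    obtain ⟨a, ha1, ha2⟩ := (D ξ).nonempty_of_mem (inter_mem hξ (hB ξ))
    rw [mem_iInter₂] at ha1 ⊢
    intro i hi
    have := ha1 i hi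
    have h4 : h a ∈ A i := this
    rw [hh ξ a ha2] at h4
    exact h4

end Pool.Agent.Lib.MP_121b2e_lc.Transfer
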